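import Pool.Agent.TH915.PW.DigitsMain

set_option autoImplicit false

/-! # Digital functions inside prime gaps of record length

Let `b ≥ 2`, let `G` be a finite abelian group and let `S : ℕ → G` be strongly `b`-additive:
`S (b n + d) = S n + S d` for `d < b` (so `S n` is the sum of the `S d` over the digits `d` of `n` in
base `b`).  Suppose that no nontrivial character of `S n` depends only on `n mod (b - 1)`.  Then for
every `ε > 0` and all large `M` every value `g` is attained by `S` at some `n` in `(M, M + M ^ ε]`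
without primes within `κ log M (log₂ M)² log₄ M / (log₃ M)²`.

Example: the sum of digits modulo `m`, for every `m` prime to `b - 1`.

Proof: two consecutive factors of the product formula for the exponential sums of `χ (S n)` cannot
both be of maximal modulus (Gelfond), which gives a power saving uniformly in the frequency; the
covering sieve of `MP_3bc45c_nt.RecordGaps` (helper256's team), in the form of `TH915/PW/Crit.lean`
for families of integers with a relative error, does the rest. -/

namespace Pool.Agent.Results.MP_69be96_nt.DigitalFunctionsInRecordGaps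

open Filter

theorem result (b : ℕ) (hb : 2 ≤ b) (G : Type) [AddCommGroup G] [Finite G] (S : ℕ → G)
    (hS : ∀ n d : ℕ, d < b → S (b * n + d) = S n + S d)
    (hN : ∀ χ : AddChar G ℂ, χ (S 1) ^ (b - 1) = 1 → (∀ d < b, χ (S d) = χ (S 1) ^ d) →
      ∀ g : G, χ g = 1)
    (ε : ℝ) (hε : 0 < ε) :
    ∃ κ : ℝ, 0 < κ ∧ ∃ M₀ : ℝ, ∀ M : ℝ, M₀ ≤ M → ∀ g : G,
      ∃ n : ℕ, M < n ∧ (n : ℝ) ≤ M + M ^ ε ∧ S n = g ∧ ∀ q : ℕ, q.Prime →
        κ * (Real.log M * (Real.log (Real.log M)) ^ 2 *
          Real.log (Real.log (Real.log (Real.log M))) / (Real.log (Real.log (Real.log M))) ^ 2) <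
            |(q : ℝ) - n| := by
  have := Fintype.ofFinite G
  obtain ⟨κ, hκ, h⟩ := Pool.Agent.TH915.PW.digits_main b hb S hS (by
    rintro χ hχ ⟨h1, h2⟩
    apply hχ
    ext g
    simpa using hN χ h1 h2 g) (min ε 1) (by positivity) (min_le_right _ _)
  obtain ⟨M₀, hM₀⟩ := eventually_atTop.1 h
  refine ⟨κ, hκ, max M₀ 1, fun M hM g => ?_⟩
  obtain ⟨n, h1, h2, h3, h4⟩ := hM₀ M ((le_max_left _ _).trans hM) g
  refine ⟨n, h1, h2.trans ?_, h3, h4⟩
  have : M ^ (min ε 1) ≤ M ^ ε :=
    Real.rpow_le_rpow_of_exponent_le ((le_max_right _ _).trans hM) (min_le_left _ _)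
  linarith

end Pool.Agent.Results.MP_69be96_nt.DigitalFunctionsInRecordGaps
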