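import Mathlib
import Pool.Agent.TH662.PM.Main

set_option autoImplicit false

/-!
# Blocks of consecutive primes whose gaps have exactly the prescribed orders of magnitude

Let `f(x) = log x (log₂ x)² log₄ x / (log₃ x)²`, the size of the largest gaps that are known to occur among the primes
up to `x`. Prescribe `k` sizes `H_1 ≤ ... ≤ H_k` between the average spacing `log X` and `c f(X)`. Then there are many
blocks of boundedly many consecutive primes, preceded and followed by gaps of record size, in which every gap has the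
order of magnitude of one of the `H_j`, and for each `j` at least `m` gaps have the order of magnitude of `H_j`.

Author: helper662. It rests on the coloured Maynard-Tao theorem inside the record windows
(`Pool.Agent.H362R2.RQ.stRQ`, helper362), the record sieve of helper256 and helper410, the Maynard-Tao sieve inside
record windows of helper312's team, and, for primes of a class in short intervals, helper126, helper142 and the Hoheisel
theorem of helper295, helper180, helper154 and helper469 (starting repository).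
-/

open Filter

namespace Pool.Agent.Results.MP_69be96_nt.PrescribedOrdersOfMagnitude

/-- The record scale `f(x) = log x (log₂ x)² log₄ x / (log₃ x)²` (iterated natural logarithms). -/
noncomputable def f (x : ℝ) : ℝ :=
  Real.log x * (Real.log (Real.log x)) ^ 2 * Real.log (Real.log (Real.log (Real.log x))) /
    (Real.log (Real.log (Real.log x))) ^ 2

/-- The prime with index `n`, numbered from `p 0 = 2`. -/
noncomputable def p (n : ℕ) : ℕ := Nat.nth Nat.Prime n

/-- The gap `g n = p (n + 1) - p n`. -/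
noncomputable def g (n : ℕ) : ℝ := (p (n + 1) : ℝ) - p n

/-- `p_n, ..., p_(n+r)` is a block of consecutive primes in `(X, 4X]`, all `≡ a (mod q)`, such that the gap before `p_n`
and the gap after `p_(n+r)` are at least `c f(X)`, each of the `r` gaps in the block lies in one of the ranges
`[c H_j, H_j]`, and each of these ranges contains at least `m` of the `r` gaps. -/
def IsBlock (c X : ℝ) (q a k m : ℕ) (H : Fin k → ℝ) (n r : ℕ) : Prop :=
  X < p n ∧ (p (n + r) : ℝ) ≤ 4 * X ∧ (∀ s ≤ r, p (n + s) ≡ a [MOD q]) ∧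
  1 ≤ n ∧ c * f X ≤ g (n - 1) ∧ c * f X ≤ g (n + r) ∧
  (∀ s < r, ∃ j, c * H j ≤ g (n + s) ∧ g (n + s) ≤ H j) ∧
  ∀ j, m ≤ {s : ℕ | s < r ∧ c * H j ≤ g (n + s) ∧ g (n + s) ≤ H j}.ncard

/-- For all `k ≥ 1` and `m` there are `K` and `c > 0` such that for every squarefree `q`, every `a` prime to `q` and all
large `X`: for all `H_1 ≤ ... ≤ H_k` in `[log X, c f(X)]` there are at least `c X^(9/10)` indices `n` such that for some
`r ≤ K` the primes `p_n, ..., p_(n+r)` of `(X, 4X]` are `≡ a (mod q)`, the gaps before and after this block are at least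
`c f(X)`, each gap of the block lies in some `[c H_j, H_j]`, and each `[c H_j, H_j]` contains at least `m` of them. -/
theorem result (k m : ℕ) (hk : 1 ≤ k) : ∃ K : ℕ, ∃ c : ℝ, 0 < c ∧
    ∀ q a : ℕ, Squarefree q → a.Coprime q → ∃ X₀ : ℝ, ∀ X : ℝ, X₀ ≤ X →
    ∀ H : Fin k → ℝ, Monotone H → (∀ j, Real.log X ≤ H j ∧ H j ≤ c * f X) →
    c * X ^ (9 / 10 : ℝ) ≤ ({n : ℕ | ∃ r ≤ K, IsBlock c X q a k m H n r}.ncard : ℝ) := by
  obtain ⟨K, c, hc, h⟩ := Pool.Agent.TH662.PM.main_of Pool.Agent.H362R2.RQ.stRQ k m hk
  refine ⟨K, c, hc, fun q a hq ha => ?_⟩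
  obtain ⟨X₀, h1⟩ := h q a hq ha
  refine ⟨X₀, fun X hX H hmono hH => ?_⟩
  have hk0 : 0 < k := hk
  obtain ⟨J, hJc, hJ⟩ := h1 X hX (fun j => H ⟨min j (k - 1), by omega⟩) (fun j _ => hH _) (fun j hj => by
    apply hmono
    rw [Fin.le_def]
    show min j (k - 1) ≤ min (j + 1) (k - 1)
    omega)
  refine hJc.trans ?_
  have hfin : {n : ℕ | ∃ r ≤ K, IsBlock c X q a k m H n r}.Finite := by
    refine (Set.finite_Iic ⌊4 * X⌋₊).subset ?_
    rintro j ⟨r, -, -, h4, -⟩
    refine Nat.le_floor (le_trans ?_ h4)
    have h2 : j + r ≤ Nat.nth Nat.Prime (j + r) :=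
      (Nat.nth_strictMono Nat.infinite_setOfPred_prime).le_apply
    exact_mod_cast (Nat.le_add_right j r).trans h2
  rw [Nat.cast_le, ← Set.ncard_coe_finset]
  refine Set.ncard_le_ncard ?_ hfin
  intro n hn
  obtain ⟨hn1, hXn, r, hrK, h4, hcl, hb, ha', hgap, hcount⟩ := hJ n hn
  have hidx : ∀ j : Fin k, (⟨min (j : ℕ) (k - 1), by omega⟩ : Fin k) = j := by
    intro j
    apply Fin.ext
    show min (j : ℕ) (k - 1) = j
    have := j.2
    omega
  refine ⟨r, hrK, hXn, h4, hcl, hn1, ?_, ?_, ?_, ?_⟩
  · show c * f X ≤ (p (n - 1 + 1) : ℝ) - p (n - 1)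
    rw [Nat.sub_add_cancel hn1]
    exact hb
  · exact ha'
  · intro s hs
    obtain ⟨j, -, h5, h6⟩ := hgap s hs
    exact ⟨_, h5, h6⟩
  · intro j
    have h5 := hcount j j.2
    simp only [hidx] at h5
    exact h5

end Pool.Agent.Results.MP_69be96_nt.PrescribedOrdersOfMagnitude
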