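import Mathlib
import Pool.Agent.TH816.RR.Fin

/-!
# A positive proportion of the residue patterns occurs along chains of record gaps

For every length `m + 1` there are `κ, δ > 0` such that for every squarefree `q` at least
`κ φ(q) ^ (m + 1)` of the words of `m + 1` reduced residue classes modulo `q` are, infinitely often, the
residues of `m + 1` consecutive primes each of which is followed by a gap of record size `≥ δ f(p)`.
-/

set_option autoImplicit false

namespace Pool.Agent.Results.MP_69be96_nt.ResiduePatternsOfRecordChains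

/-- the size of the largest gaps known to exist near `x` -/
noncomputable def f (x : ℝ) : ℝ :=
  Real.log x * (Real.log (Real.log x)) ^ 2 * Real.log (Real.log (Real.log (Real.log x))) /
    (Real.log (Real.log (Real.log x))) ^ 2

/-- the word `w` occurs along chains of record gaps: for infinitely many `n` the consecutive primes
`p_n, ..., p_(n+m)` are congruent to `w 0, ..., w m` modulo `q` and `p_(n+i+1) - p_(n+i) ≥ δ f(p_(n+i))` for
`0 ≤ i ≤ m`, where `p_n = Nat.nth Nat.Prime n` are the primes in increasing order -/
def RecordWord (q m : ℕ) (δ : ℝ) (w : Fin (m + 1) → (ZMod q)ˣ) : Prop :=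
  {n : ℕ | ∀ i : Fin (m + 1), ((Nat.nth Nat.Prime (n + i) : ℕ) : ZMod q) = w i ∧
    δ * f (Nat.nth Nat.Prime (n + i)) ≤
      (Nat.nth Nat.Prime (n + i + 1) : ℝ) - Nat.nth Nat.Prime (n + i)}.Infinite

/-- For every `m` there are `κ, δ > 0` such that for every squarefree `q` at least `κ φ(q) ^ (m + 1)` words of
`m + 1` reduced residue classes modulo `q` occur along chains of record gaps. -/
theorem result (m : ℕ) : ∃ κ δ : ℝ, 0 < κ ∧ 0 < δ ∧ ∀ (q : ℕ) [NeZero q], Squarefree q →
    κ * (q.totient : ℝ) ^ (m + 1) ≤
      ({w : Fin (m + 1) → (ZMod q)ˣ | RecordWord q m δ w}.ncard : ℝ) :=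
  Pool.Agent.TH816.RR.words_fin m

end Pool.Agent.Results.MP_69be96_nt.ResiduePatternsOfRecordChains
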