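import Pool.Agent.TH29.GQ.Fin

set_option autoImplicit false

/-!
# Every finite shape is the picture of the primes near `p` for a positive proportion of the primes

In Cramér's random model the primes near `p` form, at the scale `log p`, a Poisson process, so that
every finite set `F` of real numbers with `0 ∈ F` is, up to an error `ε`, the set of the numbers
`(p' - p) / H` (`p'` prime, `|p' - p| ≤ R H`), for a positive proportion of all primes `p` and any
fixed multiple `H` of `log p`.

Here this is proved for the primes themselves, for a multiple `H` of `log p` which lies in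
`[M log p, M' log p]`, where `M` is arbitrary and `M'` depends on `M`, `F`, `R` and `ε` only.  In
addition each point of `F` is approached by at least `m` primes and `p` is the last prime of its
cluster.

Method: the positive proportion theorem for clusters of primes in prescribed places of the starting
files (`Pool.Agent.H361R2.PP.masterT`) is applied to a tree of places; the words of length `h` over
the points of `F` which are hit form at least a quarter of all words, so that some node of the tree
has all its children hit (`Pool.Agent.TH29.GQ.full_node`).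
-/

namespace Pool.Agent.Results.MP_69be96_nt.ShapesOfPositiveDensity

/-- The `n`-th prime, numbered from `p 0 = 2`. -/
noncomputable def p (n : ℕ) : ℕ := Nat.nth Nat.Prime n

/-- At the scale `H` the primes seen from `q` form the set `F`: every prime `q'` with
`|q' - q| ≤ R H` is within `ε H` of `q + v H` for some `v ∈ F`, with `v ≠ 0` if `q' > q`, and at
least `m` primes are within `ε H` of `q + v H`, for every `v ∈ F`. -/
def Looks (F : Finset ℝ) (m : ℕ) (R ε H : ℝ) (q : ℕ) : Prop :=
  (∀ q' : ℕ, q'.Prime → |(q' : ℝ) - q| ≤ R * H →
    ∃ v ∈ F, (q < q' → v ≠ 0) ∧ |(q' : ℝ) - q - v * H| ≤ ε * H) ∧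
  ∀ v ∈ F, m ≤ {q' : ℕ | q'.Prime ∧ |(q' : ℝ) - q - v * H| ≤ ε * H}.ncard

/-- For every finite set `F` of real numbers with `0 ∈ F`, all `m`, `R`, `M` and all `ε > 0` there
are `M'` and `c > 0` such that for all large `N` at least `c N` of the first `N` primes `p n` have
the following property: for some `H` between `M log (p n)` and `M' log (p n)` the primes seen from
`p n` at the scale `H` form the set `F`. -/
theorem result (F : Finset ℝ) (hF : (0 : ℝ) ∈ F) (m : ℕ) (R ε M : ℝ) (hε : 0 < ε) :
    ∃ M' c : ℝ, 0 < c ∧ ∃ N₀ : ℕ, ∀ N : ℕ, N₀ ≤ N → c * N ≤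
      ({n : ℕ | n < N ∧ ∃ H : ℝ, M * Real.log (p n) ≤ H ∧ H ≤ M' * Real.log (p n) ∧
        Looks F m R ε H (p n)}.ncard : ℝ) := by
  classical
  obtain ⟨M', c, hc, N₀, hN₀⟩ := Pool.Agent.TH29.GQ.scale_fin F hF m R ε M hε
  refine ⟨M', c, hc, N₀, fun N hN => (hN₀ N hN).trans ?_⟩
  rw [Nat.cast_le, ← Set.ncard_coe_finset]
  refine Set.ncard_le_ncard ?_ ((Set.finite_Iio N).subset fun n hn => hn.1)
  intro n hn
  rw [Finset.mem_coe, Finset.mem_filter, Finset.mem_range] at hn
  exact hn

end Pool.Agent.Results.MP_69be96_nt.ShapesOfPositiveDensity
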